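import Mathlib

open Module.End

namespace Pool.Agent.Results.MP_bfcf3a_al.RealClosure

/-- The `F`-closure of a permutation group `G`: all permutations `σ` with `W σ = W` for every
`F G`-submodule `W` of the permutation module `F Ω = (Ω →₀ F)`; a permutation `σ` acts by the
linear map sending the basis vector of `x` to the basis vector of `σ x`. -/
def FClosure (F : Type*) [Field F] {Ω : Type*} (G : Subgroup (Equiv.Perm Ω)) :
    Set (Equiv.Perm Ω) :=
  {σ | ∀ W : Submodule F (Ω →₀ F),
      (∀ g ∈ G, W.map (Finsupp.lmapDomain F F (g : Ω → Ω)) ≤ W) →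
        W.map (Finsupp.lmapDomain F F (σ : Ω → Ω)) = W}

/-- The `G`-orbit of a finite subset of `Ω`. -/
def setOrbit {Ω : Type*} (G : Subgroup (Equiv.Perm Ω)) (s : Finset Ω) : Set (Finset Ω) :=
  {t | ∃ g ∈ G, t = s.map g.toEmbedding}

/-- The strong 2-closure of `G`: all permutations `σ` mapping each `G`-orbit on the set of
2-element subsets of `Ω` onto itself. -/
def strong2Closure {Ω : Type*} (G : Subgroup (Equiv.Perm Ω)) : Set (Equiv.Perm Ω) :=
  {σ | ∀ s : Finset Ω, s.card = 2 →
      (fun t : Finset Ω => t.map σ.toEmbedding) '' setOrbit G s = setOrbit G s}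

section linalg

variable {Ω : Type*} [Fintype Ω] [DecidableEq Ω]

/-- permutation of coordinates as a linear isometry of Euclidean space -/
noncomputable abbrev P (σ : Equiv.Perm Ω) : EuclideanSpace ℝ Ω ≃ₗᵢ[ℝ] EuclideanSpace ℝ Ω :=
  LinearIsometryEquiv.piLpCongrLeft 2 ℝ ℝ σ

/-- basis vectors -/
noncomputable abbrev e (x : Ω) : EuclideanSpace ℝ Ω := EuclideanSpace.single x (1 : ℝ)

lemma P_e (σ : Equiv.Perm Ω) (x : Ω) : P σ (e x) = e (σ x) :=
  EuclideanSpace.piLpCongrLeft_single σ x 1

lemma inner_e (v : EuclideanSpace ℝ Ω) (x : Ω) : inner ℝ v (e x) = v x := by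
  rw [EuclideanSpace.inner_single_right]
  simp

lemma ext_inner_e {u v : EuclideanSpace ℝ Ω} (h : ∀ x, inner ℝ u (e x) = inner ℝ v (e x)) :
    u = v := by
  ext x
  simpa [inner_e] using h x

lemma comm_iff (T : EuclideanSpace ℝ Ω →ₗ[ℝ] EuclideanSpace ℝ Ω) (σ : Equiv.Perm Ω) :
    (∀ v, T (P σ v) = P σ (T v)) ↔
      ∀ x y, inner ℝ (T (e (σ x))) (e (σ y)) = inner ℝ (T (e x)) (e y) := by
  constructor
  · intro h x y
    rw [← P_e σ x, h, ← P_e σ y, LinearIsometryEquiv.inner_map_map]
  · intro h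
    have hb : ∀ x, T (P σ (e x)) = P σ (T (e x)) := by
      intro x
      apply ext_inner_e
      intro y
      have := h x (σ.symm y)
      rw [Equiv.apply_symm_apply] at this
      rw [P_e, this]
      conv_rhs => rw [← Equiv.apply_symm_apply σ y, ← P_e σ (σ.symm y)]
      rw [LinearIsometryEquiv.inner_map_map]
    have hl : T ∘ₗ (P σ).toLinearEquiv.toLinearMap = (P σ).toLinearEquiv.toLinearMap ∘ₗ T := by
      apply (EuclideanSpace.basisFun Ω ℝ).toBasis.ext
      intro x
      simpa using hb x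
    intro v
    exact LinearMap.congr_fun hl v

/-- the identification of the permutation module with Euclidean space -/
noncomputable def φ : (Ω →₀ ℝ) ≃ₗ[ℝ] EuclideanSpace ℝ Ω :=
  (Finsupp.linearEquivFunOnFinite ℝ ℝ Ω).trans (WithLp.linearEquiv 2 ℝ (Ω → ℝ)).symm

lemma φ_single (x : Ω) : φ (Finsupp.single x (1 : ℝ)) = e x := by
  ext y
  simp [φ, e, eq_comm]

lemma φ_map (σ : Equiv.Perm Ω) (v : Ω →₀ ℝ) :
    φ (Finsupp.lmapDomain ℝ ℝ (σ : Ω → Ω) v) = P σ (φ v) := by
  have : (φ (Ω := Ω)).toLinearMap ∘ₗ Finsupp.lmapDomain ℝ ℝ (σ : Ω → Ω)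
      = (P σ).toLinearEquiv.toLinearMap ∘ₗ (φ (Ω := Ω)).toLinearMap := by
    apply Finsupp.lhom_ext'
    intro x
    apply LinearMap.ext_ring
    simp [φ_single]
  exact LinearMap.congr_fun this v

/-- A permutation preserving point orbits and pair orbits of `G` (up to swapping) preserves all
submodules. -/
lemma mem_FClosure {G : Subgroup (Equiv.Perm Ω)} {σ : Equiv.Perm Ω}
    (h1 : ∀ x, ∃ g ∈ G, σ x = g x)
    (h2 : ∀ x y, x ≠ y → ∃ g ∈ G, (σ x = g x ∧ σ y = g y) ∨ (σ x = g y ∧ σ y = g x)) :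
    σ ∈ FClosure ℝ G := by
  intro W hW
  set W' : Submodule ℝ (EuclideanSpace ℝ Ω) := W.map (φ (Ω := Ω)).toLinearMap with hW'
  have hmem : ∀ v, φ v ∈ W' ↔ v ∈ W := by
    intro v
    rw [hW', Submodule.mem_map]
    constructor
    · rintro ⟨w, hw, hwv⟩
      have : w = v := φ.injective hwv
      rwa [← this]
    · intro hv
      exact ⟨v, hv, rfl⟩
  -- invariance of `W'` under `G`
  have hG : ∀ g ∈ G, W'.map ((P g).toLinearEquiv : EuclideanSpace ℝ Ω →ₗ[ℝ] EuclideanSpace ℝ Ω)
      = W' := by
    intro g hg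
    apply Submodule.eq_of_le_of_finrank_eq
    · rintro _ ⟨w, hw, rfl⟩
      obtain ⟨v, hv, rfl⟩ := hw
      have : (P g).toLinearEquiv (φ v) ∈ W' := by
        change P g (φ v) ∈ W'
        rw [← φ_map, hmem]
        exact hW g hg ⟨v, hv, rfl⟩
      exact this
    · exact LinearEquiv.finrank_map_eq (P g).toLinearEquiv W'
  set π : EuclideanSpace ℝ Ω →ₗ[ℝ] EuclideanSpace ℝ Ω := W'.starProjection.toLinearMap with hπ
  have hπG : ∀ g ∈ G, ∀ v, π (P g v) = P g (π v) := by
    intro g hg v
    have := Submodule.starProjection_map_apply (P g) W' (P g v)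
    rw [LinearIsometryEquiv.symm_apply_apply] at this
    have h3 : ∀ K K' : Submodule ℝ (EuclideanSpace ℝ Ω), K = K' →
        ∀ v, K.starProjection v = K'.starProjection v := by
      rintro K _ rfl v
      rfl
    calc π (P g v) = (W'.map ((P g).toLinearEquiv :
          EuclideanSpace ℝ Ω →ₗ[ℝ] EuclideanSpace ℝ Ω)).starProjection (P g v) :=
            h3 _ _ (hG g hg).symm _
      _ = _ := this
  have hsymm : ∀ x y, inner ℝ (π (e x)) (e y) = inner ℝ (π (e y)) (e x) := by
    intro x y
    have : inner ℝ (π (e x)) (e y) = inner ℝ (e x) (π (e y)) :=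
      Submodule.inner_starProjection_left_eq_right W' (e x) (e y)
    rw [this, real_inner_comm]
  have hinv : ∀ g ∈ G, ∀ x y, inner ℝ (π (e (g x))) (e (g y)) = inner ℝ (π (e x)) (e y) :=
    fun g hg => (comm_iff π g).1 (hπG g hg)
  have hσ : ∀ v, π (P σ v) = P σ (π v) := by
    rw [comm_iff]
    intro x y
    by_cases hxy : x = y
    · subst hxy
      obtain ⟨g, hg, hgx⟩ := h1 x
      rw [hgx, hinv g hg]
    · obtain ⟨g, hg, h | h⟩ := h2 x y hxy
      · rw [h.1, h.2, hinv g hg]
      · rw [h.1, h.2, hinv g hg, hsymm]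
  have hmemπ : ∀ v, v ∈ W' ↔ π v = v := fun v => Submodule.starProjection_eq_self_iff.symm
  apply Submodule.eq_of_le_of_finrank_eq
  · rintro _ ⟨v, hv, rfl⟩
    rw [← hmem, φ_map, hmemπ, hσ]
    congr 1
    exact (hmemπ _).1 ((hmem v).2 hv)
  · have hinj : Function.Injective (Finsupp.lmapDomain ℝ ℝ (σ : Ω → Ω)) :=
      Finsupp.mapDomain_injective σ.injective
    exact (Submodule.equivMapOfInjective _ hinj W).finrank_eq.symm

/-- Elements of the real closure preserve every symmetric `G`-invariant relation. -/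
lemma rel_of_mem_FClosure {G : Subgroup (Equiv.Perm Ω)} {σ : Equiv.Perm Ω}
    (hσ : σ ∈ FClosure ℝ G) (r : Ω → Ω → Prop) (hsym : ∀ x y, r x y → r y x)
    (hinv : ∀ g ∈ G, ∀ x y, r (g x) (g y) ↔ r x y) (x y : Ω) : r (σ x) (σ y) ↔ r x y := by
  classical
  set B : Matrix Ω Ω ℝ := Matrix.of fun x y => if r x y then 1 else 0 with hB
  set T : EuclideanSpace ℝ Ω →ₗ[ℝ] EuclideanSpace ℝ Ω := Matrix.toEuclideanLin B with hT
  have hTe : ∀ x y, inner ℝ (T (e x)) (e y) = if r x y then 1 else 0 := by
    intro x y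
    rw [inner_e, hT]
    have hs : r y x ↔ r x y := ⟨hsym _ _, hsym _ _⟩
    simp [Matrix.toLpLin_apply, hB, hs]
  have hTsymm : T.IsSymmetric := by
    rw [hT, Matrix.isSymmetric_toEuclideanLin_iff]
    ext x y
    have hs : r y x ↔ r x y := ⟨hsym _ _, hsym _ _⟩
    simp [hB, Matrix.conjTranspose_apply, hs]
  have hcomm : ∀ g ∈ G, ∀ v, T (P g v) = P g (T v) := by
    intro g hg
    rw [comm_iff]
    intro x y
    rw [hTe, hTe]
    simp only [hinv g hg]
  -- `σ` preserves all eigenspaces
  have heig : ∀ μ : ℝ, ∀ v ∈ eigenspace T μ, P σ v ∈ eigenspace T μ := by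
    intro μ v hv
    set W : Submodule ℝ (Ω →₀ ℝ) := (eigenspace T μ).comap (φ (Ω := Ω)).toLinearMap with hW
    have h1 : ∀ g ∈ G, W.map (Finsupp.lmapDomain ℝ ℝ (g : Ω → Ω)) ≤ W := by
      rintro g hg _ ⟨w, hw, rfl⟩
      change φ _ ∈ eigenspace T μ
      rw [φ_map, mem_eigenspace_iff, hcomm g hg]
      have hw' : T (φ w) = μ • φ w := mem_eigenspace_iff.1 hw
      rw [hw', map_smul]
    have h2 := hσ W h1
    have h3 : φ.symm v ∈ W := by
      change φ (φ.symm v) ∈ eigenspace T μ
      rwa [LinearEquiv.apply_symm_apply]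
    have h4 : Finsupp.lmapDomain ℝ ℝ (σ : Ω → Ω) (φ.symm v) ∈ W := by
      rw [← h2]
      exact ⟨_, h3, rfl⟩
    change φ _ ∈ eigenspace T μ at h4
    rwa [φ_map, LinearEquiv.apply_symm_apply] at h4
  have htop : (⨆ μ : ℝ, eigenspace T μ) = ⊤ := by
    rw [← Submodule.orthogonal_eq_bot_iff]
    exact hTsymm.orthogonalComplement_iSup_eigenspaces_eq_bot
  have hσT : ∀ v, T (P σ v) = P σ (T v) := by
    intro v
    have hv : v ∈ (⨆ μ : ℝ, eigenspace T μ) := by rw [htop]; trivial
    induction hv using Submodule.iSup_induction' with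
    | mem μ w hw =>
      rw [mem_eigenspace_iff.1 (heig μ w hw), mem_eigenspace_iff.1 hw, map_smul]
    | zero => simp
    | add a b _ _ ha hb => simp only [map_add, ha, hb]
  have := (comm_iff T σ).1 hσT x y
  rw [hTe, hTe] at this
  by_cases ha : r (σ x) (σ y) <;> by_cases hb : r x y <;> simp_all

end linalg

section comb

variable {Ω : Type*}

lemma self_mem_setOrbit (G : Subgroup (Equiv.Perm Ω)) (s : Finset Ω) : s ∈ setOrbit G s :=
  ⟨1, G.one_mem, by ext x; simp; exact Iff.rfl⟩

lemma pair_of_mem_strong [DecidableEq Ω] {G : Subgroup (Equiv.Perm Ω)} {σ : Equiv.Perm Ω}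
    (hσ : σ ∈ strong2Closure G) (x y : Ω) (hxy : x ≠ y) :
    ∃ g ∈ G, (σ x = g x ∧ σ y = g y) ∨ (σ x = g y ∧ σ y = g x) := by
  have h := hσ {x, y} (Finset.card_pair hxy)
  have h1 : ({x, y} : Finset Ω).map σ.toEmbedding ∈ setOrbit G {x, y} := by
    rw [← h]
    exact ⟨_, self_mem_setOrbit G _, rfl⟩
  obtain ⟨g, hg, hgs⟩ := h1
  refine ⟨g, hg, ?_⟩
  simp only [Finset.map_insert, Finset.map_singleton, Equiv.coe_toEmbedding] at hgs
  have hx : σ x ∈ ({g x, g y} : Finset Ω) := by rw [← hgs]; simp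
  have hy : σ y ∈ ({g x, g y} : Finset Ω) := by rw [← hgs]; simp
  simp only [Finset.mem_insert, Finset.mem_singleton] at hx hy
  have hne : σ x ≠ σ y := fun h => hxy (σ.injective h)
  rcases hx with hx | hx <;> rcases hy with hy | hy
  · exact absurd (hx.trans hy.symm) hne
  · exact Or.inl ⟨hx, hy⟩
  · exact Or.inr ⟨hx, hy⟩
  · exact absurd (hx.trans hy.symm) hne

lemma point_of_mem_strong [Fintype Ω] [DecidableEq Ω] {G : Subgroup (Equiv.Perm Ω)}
    {σ : Equiv.Perm Ω} (hσ : σ ∈ strong2Closure G) (hdeg : ¬ (Nat.card Ω = 2 ∧ G = ⊥)) (x : Ω) :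
    ∃ g ∈ G, σ x = g x := by
  by_contra hcon
  push Not at hcon
  have h := pair_of_mem_strong hσ
  -- `x` is fixed by `G`
  have hfix : ∀ y, x ≠ y → ∃ g ∈ G, σ x = g y ∧ σ y = g x := by
    intro y hxy
    obtain ⟨g, hg, h1 | h1⟩ := h x y hxy
    · exact absurd h1.1 (hcon g hg)
    · exact ⟨g, hg, h1⟩
  have hGx : ∀ k ∈ G, k x = x := by
    intro k hk
    by_contra hkx
    obtain ⟨g, hg, h1, -⟩ := hfix (k x) (Ne.symm hkx)
    exact hcon (g * k) (G.mul_mem hg hk) h1
  have huniq : ∀ y z, x ≠ y → x ≠ z → y = z := by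
    intro y z hy hz
    obtain ⟨g, hg, -, h1⟩ := hfix y hy
    obtain ⟨k, hk, -, h2⟩ := hfix z hz
    rw [hGx g hg] at h1
    rw [hGx k hk] at h2
    exact σ.injective (h1.trans h2.symm)
  have hσx : σ x ≠ x := by
    have := hcon 1 G.one_mem
    simpa using this
  have huniv : (Finset.univ : Finset Ω) = {x, σ x} := by
    ext z
    simp only [Finset.mem_univ, Finset.mem_insert, Finset.mem_singleton, true_iff]
    by_cases hz : z = x
    · exact Or.inl hz
    · exact Or.inr (huniq z (σ x) (Ne.symm hz) (Ne.symm hσx))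
  apply hdeg
  refine ⟨?_, ?_⟩
  · rw [Nat.card_eq_fintype_card, ← Finset.card_univ, huniv]
    exact Finset.card_pair (Ne.symm hσx)
  · rw [Subgroup.eq_bot_iff_forall]
    intro k hk
    ext z
    by_cases hz : z = x
    · subst hz
      simpa using hGx k hk
    · have hkz : k z ≠ x := by
        intro hkz
        have := hGx k hk
        exact hz (k.injective (hkz.trans this.symm))
      simpa using huniq (k z) z (Ne.symm hkz) (Ne.symm hz)

end comb

/-- The real closure of a permutation group on a finite set equals its strong 2-closure, except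
in the degenerate case of the trivial group on two points. -/
theorem result {Ω : Type*} [Fintype Ω] (G : Subgroup (Equiv.Perm Ω)) :
    FClosure ℝ G = strong2Closure G ↔ ¬ (Nat.card Ω = 2 ∧ G = ⊥) := by
  classical
  constructor
  · rintro heq ⟨hcard, rfl⟩
    obtain ⟨x, y, hxy, -⟩ := Nat.card_eq_two_iff.1 hcard
    rw [Nat.card_eq_fintype_card] at hcard
    have h1 : Equiv.swap x y ∈ strong2Closure (⊥ : Subgroup (Equiv.Perm Ω)) := by
      intro s hs
      have hsu : ∀ t : Finset Ω, t.card = 2 → t = Finset.univ := by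
        intro t ht
        apply Finset.eq_univ_of_card
        rw [ht, hcard]
      have horb : setOrbit (⊥ : Subgroup (Equiv.Perm Ω)) s = {Finset.univ} := by
        ext t
        simp only [setOrbit, Set.mem_setOf_eq, Set.mem_singleton_iff]
        constructor
        · rintro ⟨g, -, rfl⟩
          apply hsu
          rw [Finset.card_map, hs]
        · rintro rfl
          refine ⟨1, Subgroup.one_mem _, ?_⟩
          symm
          apply hsu
          rw [Finset.card_map, hs]
      rw [horb, Set.image_singleton]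
      congr 1
      apply hsu
      rw [Finset.card_map, ← hs, hsu s hs]
    rw [← heq] at h1
    have h2 := h1 (Submodule.span ℝ {Finsupp.single x (1:ℝ)}) (by
      rintro g hg _ ⟨w, hw, rfl⟩
      rw [Subgroup.mem_bot] at hg
      subst hg
      simpa using hw)
    rw [Submodule.map_span, Set.image_singleton] at h2
    have h3 : Finsupp.single y (1:ℝ) ∈ Submodule.span ℝ {Finsupp.single x (1:ℝ)} := by
      rw [← h2]
      apply Submodule.subset_span
      simp
    rw [Submodule.mem_span_singleton] at h3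
    obtain ⟨a, ha⟩ := h3
    have := DFunLike.congr_fun ha y
    simp [hxy] at this
  · intro hdeg
    ext σ
    constructor
    · intro hσ s hs
      have hrel := rel_of_mem_FClosure hσ (fun x y => x ≠ y ∧ ({x, y} : Finset Ω) ∈ setOrbit G s)
        (by
          rintro x y ⟨hne, h⟩
          exact ⟨hne.symm, by rwa [Finset.pair_comm]⟩)
        (by
          intro g hg x y
          constructor
          · rintro ⟨hne, k, hk, h⟩
            refine ⟨fun h => hne (by rw [h]), g⁻¹ * k, G.mul_mem (G.inv_mem hg) hk, ?_⟩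
            have := congrArg (fun t : Finset Ω => t.map (g⁻¹ : Equiv.Perm Ω).toEmbedding) h
            simp only [Finset.map_insert, Finset.map_singleton, Equiv.coe_toEmbedding,
              Equiv.Perm.inv_def, Equiv.symm_apply_apply, Finset.map_map] at this
            rw [this]
            congr 1
          · rintro ⟨hne, k, hk, h⟩
            refine ⟨fun h => hne (g.injective h), g * k, G.mul_mem hg hk, ?_⟩
            have := congrArg (fun t : Finset Ω => t.map g.toEmbedding) h
            simp only [Finset.map_insert, Finset.map_singleton, Equiv.coe_toEmbedding,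
              Finset.map_map] at this
            rw [this]
            congr 1)
      ext t
      constructor
      · rintro ⟨u, hu, rfl⟩
        have hcu : u.card = 2 := by
          obtain ⟨g, -, rfl⟩ := hu
          rw [Finset.card_map, hs]
        obtain ⟨a, b, hab, rfl⟩ := Finset.card_eq_two.1 hcu
        have := ((hrel a b).2 ⟨hab, hu⟩).2
        simpa using this
      · intro ht
        have hct : t.card = 2 := by
          obtain ⟨g, -, rfl⟩ := ht
          rw [Finset.card_map, hs]
        obtain ⟨a, b, hab, rfl⟩ := Finset.card_eq_two.1 hct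
        have h1 := (hrel (σ.symm a) (σ.symm b)).1 (by
          simpa using ⟨hab, ht⟩)
        exact ⟨_, h1.2, by simp⟩
    · intro hσ
      exact mem_FClosure (point_of_mem_strong hσ hdeg) (pair_of_mem_strong hσ)

end Pool.Agent.Results.MP_bfcf3a_al.RealClosure
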